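import Pool.Agent.Q116.GT.Cnt
import Pool.Agent.TH526.ZT.D
import Pool.Agent.TH526.ZT.J
import Pool.Agent.Results.MP_dd1803_nt.EllipticExtensions

/-!
# MP_eeb1a4_ag: Zilber-Pink for variations of 1-motives over the translates of a subvariety of an
extension of an elliptic curve by a torus

Let `E : y² = x³ + a x + b` be an elliptic curve over `ℂ`, `Q_1, …, Q_k` points of `E`, such that the
`Q_i ≠ O` are linearly independent modulo torsion, and `G` the extension of `E` by `G_m^k` with the
classes `Q_i - O`. The points `g` of `G` are the `1`-motives `[ℤ → G]`, `1 ↦ g`. Their Hodge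
realizations form an admissible variation of mixed Hodge structures with the weights `0, -1, -2` on
`G`, the period map is the inclusion of `G` in a mixed Shimura variety, and the special subvarieties
are the torsion cosets of `G`. So for the restriction of the variation to a subvariety `W` of `G`, the
special subvarieties are the components of the intersections of `W` with torsion cosets, and the
atypical ones are those whose dimension is larger than expected (`NoAtypical` of the starting file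
`MP_dd1803_nt.EllipticExtensions`, whose coordinates and definitions are used here; it is about the
`S`-unit translates of `W`).

Let `V` be an arbitrary algebraic subset of `G` of dimension `m` without component of dimension `m` in
the fibre over a torsion point of `E`. There is a number `K`, depending only on `V`, such that for
`K t < N` the following holds.

(1) **Powers.** Let `g` be a vector of nonzero rational numbers and `p_i`, `i < N`, prime numbers, and
suppose that any `t` of the vectors `(v_{p_i}(g_1), …, v_{p_i}(g_k))` span `ℚ^k`. Then for all but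
finitely many integers `e` the translate of `V` by `g ^ e` has no atypical subvariety at all.

(2) **Groups.** Let `g_1, …, g_r` be vectors of nonzero rational numbers such that for every set `T`
of `t` of the primes there is a product `g_1 ^ m_1 ⋯ g_r ^ m_r` for which the vectors of the valuations
at the primes in `T` span `ℚ^k`. Then for all but `O(R ^ (r - 1 / k))` of the exponents `|e_l| ≤ R` the
translate of `V` by `g_1 ^ e_1 ⋯ g_r ^ e_r` has no atypical subvariety at all.

(3) **The general case.** Let `v_i`, `i < N`, be any nonarchimedean absolute values of the field `ℂ`,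
`g_1, …, g_r` any points of the torus, and `B` a number. If for all real `m ≠ 0` in a closed cone `C`
any `t` of the vectors `∑_l m_l (log v_i(g_l1), …, log v_i(g_lk))` span `ℝ^k`, then for all but
finitely many integral points `e` of `C` the translate of `V` by `g_1 ^ e_1 ⋯ g_r ^ e_r` has no
atypical intersection with any translate of a torsion coset of `G` by an element `θ` of the torus with
`|log v_i(θ_j)| ≤ B`. If for every `t` of the places there is only some such `m`, then this is true
for all but `O(R ^ (r - 1 / k))` of the exponents `|e_l| ≤ R`.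

The dimension of `V` is arbitrary, `E`, the `Q_i` and `V` are defined over `ℂ`, and the primes may be
small or places of bad reduction. For subvarieties of tori (the case without `E`) see the starting
files `FinitelyGeneratedTranslates` (groups of the form `Δ^n`) and `MP_c95b3b_ag.PowerTranslates`.
-/

set_option autoImplicit false

namespace Pool.Agent.Results.MP_eeb1a4_ag.ExtensionTranslates

open MvPolynomial WeierstrassCurve
open Pool.Agent.Results.MP_b7926e_nt.NoAtypical (coset idealOf dim)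
open Pool.Agent.Results.MP_dd1803_nt.EllipticExtensions

variable {a b : ℂ} {k : ℕ}

/-- The element `g_1 ^ e_1 ⋯ g_r ^ e_r` of the torus. -/
noncomputable def power {r : ℕ} (g : Fin r → Fin k → ℂ) (e : Fin r → ℤ) : Fin k → ℂ :=
  fun j => ∏ l, g l j ^ e l

/-- The translate of `V` by the element `g` of the torus. -/
def translateBy (g : Fin k → ℂ) (V : Set (E a b × (Fin k → ℂ))) : Set (E a b × (Fin k → ℂ)) :=
  {h | ∃ h' ∈ V, h.1 = h'.1 ∧ ∀ i, h.2 i = g i * h'.2 i}

/-- `W`, regarded as a set of dimension `m`, has no atypical intersection with a translate of a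
torsion coset by an element `θ` of the torus with `|log v_i(θ_j)| ≤ B`. (1) The irreducible subsets
`{P} × A` of its intersection with `{(P, u) | u ^ c = (η θ) ^ c for all c in M}`, `(P, η)` a torsion
point, satisfy `dim A ≤ m + (k - rank M) - (k + 1)`. (2) The irreducible sets `A` of affine points
`(x, y, u)` of its intersection with `{(P, u) | u ^ c = θ ^ c for all c in M}` satisfy
`dim A ≤ m + (k + 1 - rank M) - (k + 1)`. -/
def NoAtypicalWithin {N : ℕ} (Q : Fin k → E a b) (m : ℕ) (v : Fin N → AbsoluteValue ℂ ℝ) (B : ℝ)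
    (W : Set (E a b × (Fin k → ℂ))) : Prop :=
  (∀ (P : E a b) (η θ : Fin k → ℂ), IsTorsionPoint Q (P, η) → (∀ j, θ j ≠ 0) →
    (∀ i j, |Real.log (v i (θ j))| ≤ B) →
    ∀ (M : Submodule ℤ (Fin k → ℤ)) (A : Set (Fin k → ℂ)), A ⊆ {u | (P, u) ∈ W} →
      A ⊆ coset M (fun j => η j * θ j) → (idealOf A).IsPrime →
      dim A + (Module.finrank ℤ M : Cardinal) + 1 ≤ (m : Cardinal)) ∧
  ∀ θ : Fin k → ℂ, (∀ j, θ j ≠ 0) → (∀ i j, |Real.log (v i (θ j))| ≤ B) →
    ∀ (M : Submodule ℤ (Fin k → ℤ)) (A : Set (Fin (k + 2) → ℂ)),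
      (∀ z ∈ A, ∃ h, ((Affine.Point.some (z 0) (z 1) h : E a b), fun j => z j.succ.succ) ∈ W) →
      (∀ z ∈ A, (fun j : Fin k => z j.succ.succ) ∈ coset M θ) →
      (idealOf A).IsPrime → dim A + (Module.finrank ℤ M : Cardinal) ≤ (m : Cardinal)

/-- For all nonzero `m` in `C` any `t` of the vectors `∑_l m_l (log v_i(g_l1), …, log v_i(g_lk))`
span `ℝ^k`. -/
def GeneralPosition {r N : ℕ} (t : ℕ) (v : Fin N → AbsoluteValue ℂ ℝ) (g : Fin r → Fin k → ℂ)
    (C : Set (Fin r → ℝ)) : Prop :=
  ∀ m ∈ C, m ≠ 0 → ∀ T : Finset (Fin N), T.card = t →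
    Submodule.span ℝ (Set.range fun (i : T) (j : Fin k) => ∑ l, m l * Real.log (v i (g l j))) = ⊤

/-- For every set `T` of `t` of the places there is a real vector `m` such that the vectors
`∑_l m_l (log v_i(g_l1), …, log v_i(g_lk))`, `i ∈ T`, span `ℝ^k`. -/
def Generic {r N : ℕ} (t : ℕ) (v : Fin N → AbsoluteValue ℂ ℝ) (g : Fin r → Fin k → ℂ) : Prop :=
  ∀ T : Finset (Fin N), T.card = t → ∃ m : Fin r → ℝ,
    Submodule.span ℝ (Set.range fun (i : T) (j : Fin k) => ∑ l, m l * Real.log (v i (g l j))) = ⊤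

theorem noAtW_iff {N : ℕ} {Q : Fin k → E a b} {m : ℕ} {v : Fin N → AbsoluteValue ℂ ℝ} {B : ℝ}
    {W : Set (E a b × (Fin k → ℂ))} (h : Y237.SA.NoAtW Q m v B W) : NoAtypicalWithin Q m v B W := by
  obtain ⟨h1, h2⟩ := h
  refine ⟨?_, h2⟩
  rintro P η θ ⟨n, hn, hη⟩ hθ hθB M A hAW hAT hA
  rw [pow_eq] at hη
  exact h1 P η θ n hn hη hθ hθB M A hAW hAT hA

theorem noAtypical_of_within {N : ℕ} {Q : Fin k → E a b} {m : ℕ} {v : Fin N → AbsoluteValue ℂ ℝ}
    {W : Set (E a b × (Fin k → ℂ))} (h : Y237.SA.NoAtW Q m v 0 W) : NoAtypical Q m W :=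
  noAtypical_of h

theorem general (hD : 4 * a ^ 3 + 27 * b ^ 2 ≠ 0) (Q : Fin k → E a b)
    (hQ : ∀ i, Q i ≠ 0 → ∀ n : ℕ, 0 < n → n • Q i ≠ 0) (m : ℕ)
    (V : Set (E a b × (Fin k → ℂ))) (hV : DimLE m V)
    (hF : ∀ P : E a b, (∃ n : ℕ, 0 < n ∧ n • P = 0) → FibreDimLT m V P) :
    ∃ K : ℕ, ∀ N t : ℕ, K * t < N → ∀ v : Fin N → AbsoluteValue ℂ ℝ,
      (∀ i, IsNonarchimedean (v i)) → ∀ (r : ℕ) (g : Fin r → Fin k → ℂ), (∀ l j, g l j ≠ 0) →
        ∀ B : ℝ,
        (∀ C : Set (Fin r → ℝ), IsClosed C → (∀ x ∈ C, ∀ s : ℝ, 0 < s → s • x ∈ C) →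
          GeneralPosition t v g C →
            {e : Fin r → ℤ | (fun l => (e l : ℝ)) ∈ C ∧
              ¬ Y237.SA.NoAtW Q m v B (translateBy (power g e) V)}.Finite) ∧
        (Generic t v g → ∃ c : ℝ, ∀ R : ℕ, 1 ≤ R →
          (Nat.card {e : Fin r → ℤ // (∀ l, |e l| ≤ R) ∧
            ¬ Y237.SA.NoAtW Q m v B (translateBy (power g e) V)} : ℝ) ≤
              c * (R : ℝ) ^ ((r : ℝ) - 1 / k)) := by
  classical
  obtain ⟨K, h⟩ := Y237.SA.main_crit (a := a) (b := b) hD Q hQ m V hV hF
  refine ⟨K, fun N t hN v hv r g hg B => ?_⟩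
  obtain ⟨B', hB', hmain⟩ := h N t hN v hv B
  have hp0 : ∀ e : Fin r → ℤ, ∀ j, power g e j ≠ 0 := fun e j =>
    Finset.prod_ne_zero_iff.2 fun l _ => zpow_ne_zero _ (hg l j)
  have hlog : ∀ (e : Fin r → ℤ) i j, Real.log (v i (power g e j)) =
      ∑ l, (e l : ℝ) * Real.log (v i (g l j)) := by
    intro e i j
    rw [power, map_prod, Real.log_prod]
    · refine Finset.sum_congr rfl fun l _ => ?_
      rw [map_zpow₀, Real.log_zpow]
    · intro l _
      rw [map_zpow₀]
      exact zpow_ne_zero _ ((v i).ne_zero (hg l j))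
  have hbad : ∀ e : Fin r → ℤ, ¬ Y237.SA.NoAtW Q m v B (translateBy (power g e) V) →
      ∃ T : Finset (Fin N), T.card = t ∧ ∃ φ : Fin k → ℝ, ‖φ‖ = 1 ∧
        ∀ i ∈ T, |∑ j, φ j * ∑ l, (e l : ℝ) * Real.log (v i (g l j))| ≤ B' := by
    intro e he
    obtain ⟨T, hT, φ, hφ, hφB⟩ := hmain (power g e) (hp0 e) he
    simp only [hlog] at hφB
    exact ⟨T, hT, φ, hφ, hφB⟩
  refine ⟨fun C hC hcone hgen => ?_, fun hgen => ?_⟩
  · obtain ⟨R, hR⟩ := TH526.ZT.cone_bound t (fun l i j => Real.log (v i (g l j))) C hC hcone hgen B'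
    have hfin : (Set.pi Set.univ fun _ : Fin r => Set.Icc (-⌈R⌉) ⌈R⌉).Finite :=
      Set.Finite.pi fun _ => Set.finite_Icc _ _
    refine hfin.subset ?_
    rintro e ⟨heC, he⟩
    obtain ⟨T, hT, φ, hφ, hφB⟩ := hbad e he
    have hnorm := hR _ heC T hT φ hφ hφB
    intro l _
    have h1 : |(e l : ℝ)| ≤ R := (norm_le_pi_norm (fun l => (e l : ℝ)) l).trans hnorm
    have h2 : |(e l : ℝ)| ≤ (⌈R⌉ : ℝ) := h1.trans (Int.le_ceil R)
    have h3 : |e l| ≤ ⌈R⌉ := by exact_mod_cast h2
    exact Set.mem_Icc.2 (abs_le.1 h3)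
  · obtain ⟨c, hc0, hc⟩ := Q116.GT.count_group t (fun l i j => Real.log (v i (g l j))) hgen B'
    refine ⟨c, fun R hR => ?_⟩
    have hfin : {e : Fin r → ℤ | (∀ l, |e l| ≤ R) ∧
        ¬ Y237.SA.NoAtW Q m v B (translateBy (power g e) V)}.Finite := by
      refine (Set.finite_Icc (fun _ => -(R : ℤ)) (fun _ => (R : ℤ))).subset fun e he => ?_
      exact ⟨fun l => (abs_le.1 (he.1 l)).1, fun l => (abs_le.1 (he.1 l)).2⟩
    have hcard : Nat.card {e : Fin r → ℤ // (∀ l, |e l| ≤ R) ∧
        ¬ Y237.SA.NoAtW Q m v B (translateBy (power g e) V)} = hfin.toFinset.card :=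
      Nat.card_eq_card_finite_toFinset hfin
    rw [hcard]
    have h1 := hc R hR hfin.toFinset fun e he => by
      obtain ⟨heR, hno⟩ := hfin.mem_toFinset.1 he
      exact ⟨heR, hbad e hno⟩
    rwa [Fintype.card_fin] at h1

theorem card_mono {r : ℕ} {P Q : (Fin r → ℤ) → Prop} (h : ∀ m, P m → Q m) (R : ℕ) :
    Nat.card {m : Fin r → ℤ // (∀ k, |m k| ≤ R) ∧ P m} ≤
      Nat.card {m : Fin r → ℤ // (∀ k, |m k| ≤ R) ∧ Q m} := by
  classical
  have hfin : Finite {m : Fin r → ℤ // (∀ k, |m k| ≤ R) ∧ Q m} := by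
    have h1 : {m : Fin r → ℤ | (∀ k, |m k| ≤ R) ∧ Q m}.Finite := by
      refine (Set.finite_Icc (fun _ => -(R : ℤ)) (fun _ => (R : ℤ))).subset fun m hm => ?_
      exact ⟨fun k => (abs_le.1 (hm.1 k)).1, fun k => (abs_le.1 (hm.1 k)).2⟩
    exact h1.to_subtype
  refine Nat.card_le_card_of_injective (fun m => ⟨m.1, m.2.1, h m.1 m.2.2⟩) ?_
  intro m m' hmm
  exact Subtype.ext (congrArg (fun z => z.1) hmm)

/-- Let `V` be an algebraic subset of dimension at most `m` of the extension `G` of the elliptic curve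
`E` by `G_m^k` with the classes `Q_i - O`, without component of dimension `m` in the fibre over a
torsion point of `E`. There is a number `K` such that for `K t < N`:

(1) if any `t` of the vectors of the valuations of a rational vector `g` at `N` primes span `ℚ^k`, then
for all but finitely many integers `e` the translate of `V` by `g ^ e` has no atypical subvariety;

(2) if `g_1, …, g_r` are rational vectors such that for every set `T` of `t` of `N` primes there is a
rational `x` for which the vectors `∑_l x_l (v_{p_i}(g_l1), …, v_{p_i}(g_lk))`, `i ∈ T`, span `ℚ^k`,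
then for all but `O(R ^ (r - 1 / k))` of the exponents `|e_l| ≤ R` the translate of `V` by
`g_1 ^ e_1 ⋯ g_r ^ e_r` has no atypical subvariety;

(3) if `v_i`, `i < N`, are nonarchimedean absolute values of `ℂ` and `g_1, …, g_r` points of the
torus in general position on the closed cone `C`, then for all but finitely many integral points `e`
of `C` the translate of `V` by `g_1 ^ e_1 ⋯ g_r ^ e_r` has no atypical intersection with a translate
bounded by `B` of a torsion coset; if `g_1, …, g_r` are generic, then this is true for all but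
`O(R ^ (r - 1 / k))` of the exponents `|e_l| ≤ R`. -/
theorem result (a b : ℂ) (hE : 4 * a ^ 3 + 27 * b ^ 2 ≠ 0) (k m : ℕ) (Q : Fin k → E a b)
    (hQ : ∀ c : Fin k → ℤ, (∃ n : ℕ, 0 < n ∧ n • ∑ i, c i • Q i = 0) →
      ∀ i, Q i ≠ 0 → c i = 0)
    (V : Set (E a b × (Fin k → ℂ))) (hV : DimLE m V)
    (hfib : ∀ P : E a b, (∃ n : ℕ, 0 < n ∧ n • P = 0) → FibreDimLT m V P) :
    ∃ K : ℕ, ∀ N t : ℕ, K * t < N →
      (∀ p : Fin N → ℕ, (∀ i, (p i).Prime) → ∀ g : Fin k → ℚ, (∀ j, g j ≠ 0) →
        (∀ T : Finset (Fin N), T.card = t → Submodule.span ℚ (Set.range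
          fun (i : T) (j : Fin k) => (padicValRat (p i) (g j) : ℚ)) = ⊤) →
        {e : ℤ | ¬ NoAtypical Q m (translateBy (fun j => (g j : ℂ) ^ e) V)}.Finite) ∧
      (∀ (r : ℕ) (p : Fin N → ℕ), (∀ i, (p i).Prime) → ∀ g : Fin r → Fin k → ℚ,
        (∀ l j, g l j ≠ 0) →
        (∀ T : Finset (Fin N), T.card = t → ∃ x : Fin r → ℚ, Submodule.span ℚ (Set.range
          fun (i : T) (j : Fin k) => ∑ l, x l * (padicValRat (p i) (g l j) : ℚ)) = ⊤) →
        ∃ c : ℝ, ∀ R : ℕ, 1 ≤ R →
          (Nat.card {e : Fin r → ℤ // (∀ l, |e l| ≤ R) ∧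
            ¬ NoAtypical Q m (translateBy (power (fun l j => (g l j : ℂ)) e) V)} : ℝ) ≤
              c * (R : ℝ) ^ ((r : ℝ) - 1 / k)) ∧
      ∀ v : Fin N → AbsoluteValue ℂ ℝ, (∀ i, IsNonarchimedean (v i)) →
        ∀ (r : ℕ) (g : Fin r → Fin k → ℂ), (∀ l j, g l j ≠ 0) → ∀ B : ℝ,
        (∀ C : Set (Fin r → ℝ), IsClosed C → (∀ x ∈ C, ∀ s : ℝ, 0 < s → s • x ∈ C) →
          GeneralPosition t v g C →
            {e : Fin r → ℤ | (fun l => (e l : ℝ)) ∈ C ∧
              ¬ NoAtypicalWithin Q m v B (translateBy (power g e) V)}.Finite) ∧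
        (Generic t v g → ∃ c : ℝ, ∀ R : ℕ, 1 ≤ R →
          (Nat.card {e : Fin r → ℤ // (∀ l, |e l| ≤ R) ∧
            ¬ NoAtypicalWithin Q m v B (translateBy (power g e) V)} : ℝ) ≤
              c * (R : ℝ) ^ ((r : ℝ) - 1 / k)) := by
  classical
  have hQ' : ∀ i, Q i ≠ 0 → ∀ n : ℕ, 0 < n → n • Q i ≠ 0 := by
    intro i hi n hn h0
    have h1 := hQ (Pi.single i 1) ⟨n, hn, ?_⟩ i hi
    · rw [Pi.single_eq_same] at h1
      exact one_ne_zero h1
    · rw [Finset.sum_eq_single i]
      · rw [Pi.single_eq_same, one_zsmul, h0]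
      · intro j _ hj
        rw [Pi.single_eq_of_ne hj, zero_zsmul]
      · intro h
        exact absurd (Finset.mem_univ i) h
  obtain ⟨K, h⟩ := general hE Q hQ' m V hV hfib
  refine ⟨K, fun N t hN => ⟨fun p hp g hg hspan => ?_, fun r p hp g hg hspan => ?_,
    fun v hv r g hg B => ⟨fun C hC hcone hgen => ?_, fun hgen => ?_⟩⟩⟩
  · have hfact : ∀ i, Fact (p i).Prime := fun i => ⟨hp i⟩
    let τ : ∀ i, ℂ →+* PadicAlgCl (p i) := fun i =>
      Classical.choice (H936R2.exists_embedding (p i))
    have h1 : ∀ T : Finset (Fin N), T.card = t → Submodule.span ℝ (Set.range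
        fun (i : T) (j : Fin k) => Real.log (TH526.ZT.pabs (p i) (τ i) ((g j : ℚ) : ℂ))) = ⊤ := by
      intro T hT
      have h1 := TH526.ZT.span_real _ (hspan T hT) (fun i : T => -Real.log (p i))
        (fun i => neg_ne_zero.2 (Real.log_pos (by exact_mod_cast (hp i).one_lt)).ne')
      rw [← h1]
      congr 2
      funext i j
      rw [TH526.ZT.log_pabs _ _ _ (hg j)]
      push_cast
      ring
    have hgp : GeneralPosition t (fun i => TH526.ZT.pabs (p i) (τ i))
        (fun (_ : Fin 1) (j : Fin k) => ((g j : ℚ) : ℂ)) Set.univ := by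
      intro x _ hx T hT
      have hx0 : x 0 ≠ 0 := by
        intro h0
        apply hx
        funext l
        rw [Subsingleton.elim l 0]
        exact h0
      have h2 := h1 T hT
      rw [eq_top_iff] at h2 ⊢
      refine h2.trans (Submodule.span_le.2 ?_)
      rintro _ ⟨i, rfl⟩
      have h3 : (fun j : Fin k => Real.log (TH526.ZT.pabs (p i) (τ i) ((g j : ℚ) : ℂ))) =
          (x 0)⁻¹ • fun j : Fin k => ∑ l : Fin 1, x l *
            Real.log (TH526.ZT.pabs (p i) (τ i) ((g j : ℚ) : ℂ)) := by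
        funext j
        simp only [Finset.univ_unique, Fin.default_eq_zero, Finset.sum_singleton, Pi.smul_apply,
          smul_eq_mul]
        rw [inv_mul_cancel_left₀ hx0]
      rw [SetLike.mem_coe]
      change (fun j : Fin k => Real.log (TH526.ZT.pabs (p i) (τ i) ((g j : ℚ) : ℂ))) ∈ _
      rw [h3]
      exact Submodule.smul_mem _ _ (Submodule.subset_span ⟨i, rfl⟩)
    have hfin := (h N t hN (fun i => TH526.ZT.pabs (p i) (τ i))
      (fun i => TH526.ZT.pabs_nonarch (p i) (τ i)) 1 (fun _ j => ((g j : ℚ) : ℂ))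
      (fun _ j => Rat.cast_ne_zero.2 (hg j)) 0).1 Set.univ isClosed_univ
      (fun _ _ _ _ => Set.mem_univ _) hgp
    have hfin2 := hfin.image (fun e : Fin 1 → ℤ => e 0)
    refine hfin2.subset ?_
    intro e he
    refine ⟨fun _ => e, ⟨Set.mem_univ _, fun hno => he ?_⟩, rfl⟩
    have hW : translateBy (power (fun (_ : Fin 1) (j : Fin k) => ((g j : ℚ) : ℂ)) fun _ => e) V =
        translateBy (fun j => (g j : ℂ) ^ e) V := by
      congr 1
      funext j
      simp [power]
    rw [hW] at hno
    exact noAtypical_of_within hno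
  · have hfact : ∀ i, Fact (p i).Prime := fun i => ⟨hp i⟩
    let τ : ∀ i, ℂ →+* PadicAlgCl (p i) := fun i =>
      Classical.choice (H936R2.exists_embedding (p i))
    have hgen : Generic t (fun i => TH526.ZT.pabs (p i) (τ i)) (fun l j => ((g l j : ℚ) : ℂ)) := by
      intro T hT
      obtain ⟨x, hx⟩ := hspan T hT
      refine ⟨fun l => (x l : ℝ), ?_⟩
      have h1 := TH526.ZT.span_real _ hx (fun i : T => -Real.log (p i))
        (fun i => neg_ne_zero.2 (Real.log_pos (by exact_mod_cast (hp i).one_lt)).ne')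
      rw [← h1]
      congr 2
      funext i j
      simp only [TH526.ZT.log_pabs _ _ _ (hg _ j)]
      push_cast
      rw [Finset.mul_sum]
      refine Finset.sum_congr rfl fun l _ => ?_
      ring
    obtain ⟨c, hc⟩ := (h N t hN (fun i => TH526.ZT.pabs (p i) (τ i))
      (fun i => TH526.ZT.pabs_nonarch (p i) (τ i)) r (fun l j => ((g l j : ℚ) : ℂ))
      (fun l j => Rat.cast_ne_zero.2 (hg l j)) 0).2 hgen
    refine ⟨c, fun R hR => le_trans ?_ (hc R hR)⟩
    have h3 := card_mono (r := r)
      (P := fun e => ¬ NoAtypical Q m (translateBy (power (fun l j => (g l j : ℂ)) e) V))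
      (Q := fun e => ¬ Y237.SA.NoAtW Q m (fun i => TH526.ZT.pabs (p i) (τ i)) 0
        (translateBy (power (fun l j => (g l j : ℂ)) e) V))
      (fun e he hno => he (noAtypical_of_within hno)) R
    exact_mod_cast h3
  · refine ((h N t hN v hv r g hg B).1 C hC hcone hgen).subset ?_
    rintro e ⟨heC, he⟩
    exact ⟨heC, fun hno => he (noAtW_iff hno)⟩
  · obtain ⟨c, hc⟩ := (h N t hN v hv r g hg B).2 hgen
    refine ⟨c, fun R hR => le_trans ?_ (hc R hR)⟩
    have h3 := card_mono (r := r)
      (P := fun e => ¬ NoAtypicalWithin Q m v B (translateBy (power g e) V))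
      (Q := fun e => ¬ Y237.SA.NoAtW Q m v B (translateBy (power g e) V))
      (fun e he hno => he (noAtW_iff hno)) R
    exact_mod_cast h3

end Pool.Agent.Results.MP_eeb1a4_ag.ExtensionTranslates
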