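import Pool.Agent.Q116.ZE.Bin
import Pool.Agent.Results.MP_a325a5_ag.LegendreScaledImages

/-!
# MP_eeb1a4_ag: Zilber-Pink for variations of mixed Hodge structures given by Legendre curves, points on
them and Kummer extensions, for almost all scalings by the values of binary forms

Let `S` be a smooth complex variety with regular functions `t ≠ 0, 1` and `u_1, …, u_q ≠ 0`, and
sections `P_1, …, P_n` of the family of elliptic curves `E_t : y² = x (x - 1) (x - t)`. They define a
variation of mixed Hodge structures over `S`, the sum of the extensions of `ℤ(0)` by `H_1 (E_t)` given by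
the `P_i` and of the extensions of `ℤ(0)` by `ℤ(1)` given by the `u_j`. Its period map is the map
`(t, P, u)` from `S` to the mixed Shimura variety `E_L^n × G_m^q`, the `n`-th fibre power of the Legendre
family times a torus, and its special subvarieties are the components of the preimages of the special
subvarieties `Z` of `E_L^n × G_m^q`.

We consider the constructible sets `X_c ⊂ E_L^n × G_m^q` of the starting file `LegendreScaledImages` of
`MP_a325a5_ag` (whose definitions are used here): `Y ⊆ P^N` is a projective algebraic set of any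
dimension over a countable field `K ⊂ ℂ`, `f_0 = a_0 / b_0`, `f_i = a_i / (b_0 b_i)`, `f_j = a_j / b_j`
are rational functions on `Y` over `K`, one for every coordinate `t`, `x (P_i)`, `u_j`, no point of `Y`
is on `m + 1` of the divisors `a_s b_s = 0` and the coordinate hyperplanes (for `Y` of dimension `m`
this is so in general), and `X_c` is the set of all points with `t = f_0 (y) / c_0`,
`x (P_i) = f_i (y) / (c_0 c_i)`, `u_j = f_j (y) / c_j` for some `y ∈ Y`.

`NoAtypical`: every irreducible closed set which is, outside of a hypersurface, in `X_c ∩ Z` has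
dimension at most `m - codim Z`. So for all smooth locally closed `S ⊆ X_c` of dimension `m` the
variation above has no atypical special subvarieties at all (also in the fibres with complex
multiplication), `HL (S)_atyp` is empty, and so Q1 holds for these `S`.

Let `L = (q - 1) 2 ^ q + 1`, let `F_1, …, F_L` be binary forms with integral coefficients and degrees
between `1` and `k`, `F_l (s, t) = t ^ (deg f_l) f_l (s / t)` for pairwise coprime polynomials `f_l`,
and let `G_i (s, t) = t ^ (N_i) g_i (s / t)` be arbitrary nonzero forms, coprime to the `F_l`. The scalings `c_0`, `c_i` are the `β`-th roots of the numbers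
`|G_i (s, t)| ∏_l |F_l (s, t)| ^ (e_l i)`, and the `c_j` are the numbers
`|G_j (s, t)| ∏_l |F_l (s, t)| ^ (a'_l j)`.

**Theorem.** There are constants `C`, `E` such that for all prime numbers `β` and all exponents with
`GoodExpL` (for example `e_l 0 = β`, `e_l i = β + i` for `1 ≤ i ≤ n < β`, `a'_l j = (l + 1) ^ j`) and all
`H` the set `X_c` has no atypical intersections for all pairs of coprime integers `|s|, |t| ≤ H`, with
at most `C H ^ (1 + k / β) (1 + log H) ^ E` exceptions. (So for `β > k` this is true for 100 percent of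
the rational numbers `s / t` ordered by the height, and the exponent tends to `1` if `β` tends to
infinity.)

The proof: if `(s, t)` is an exception then one of the `F_l (s, t)` is `0` or a product of a `β`-th power
and of a number all of whose prime divisors are bounded, or one of the `G_i (s, t)` is `0`.
-/

set_option autoImplicit false

namespace Pool.Agent.Results.MP_eeb1a4_ag.LegendreBinaryForms

open MvPolynomial Pool.Agent.W466.EP Pool.Agent.W282.ZP Pool.Agent.W282.LF
open Pool.Agent.Results.MP_a325a5_ag.LegendreScaledImages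

/-- The value at `(s, t)` of the binary form of degree `N` with the coefficients of `f`; it is
`t ^ N * f (s / t)`, if `t ≠ 0` and the degree of `f` is at most `N`. -/
def form (N : ℕ) (f : Polynomial ℤ) (s t : ℤ) : ℤ :=
  ∑ i ∈ Finset.range (N + 1), f.coeff i * s ^ i * t ^ (N - i)

/-- Zilber-Pink with no atypical intersections for almost all scalings by the values of binary forms
of a projective algebraic set mapped to the mixed Shimura variety `E_L^n × G_m^q`. -/
theorem result {κ : Type*} (K : Subfield ℂ) [Countable K] (N₀ n q m : ℕ)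
    (G : κ → MvPolynomial (Fin (N₀ + 1)) K) (a b : Ind n q → MvPolynomial (Fin (N₀ + 1)) K)
    (dg : Ind n q → ℕ) (hY : IsMap G a b dg m)
    (Γm : Finset ℂˣ) (hΓm : ∀ γ ∈ Γm, (γ : ℂ) ∈ K)
    (f : Fin ((q - 1) * 2 ^ q + 1) → Polynomial ℤ) (k : ℕ)
    (hf : ∀ l, 1 ≤ (f l).natDegree ∧ (f l).natDegree ≤ k)
    (hcop : ∀ l l', l ≠ l' →
      IsCoprime ((f l).map (Int.castRingHom ℚ)) ((f l').map (Int.castRingHom ℚ)))
    (g : Ind n q → Polynomial ℤ) (hg : ∀ i, g i ≠ 0) (N : Ind n q → ℕ)
    (hN : ∀ i, (g i).natDegree ≤ N i)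
    (hfg : ∀ l i, IsCoprime ((f l).map (Int.castRingHom ℚ)) ((g i).map (Int.castRingHom ℚ))) :
    ∃ (C : ℝ) (E : ℕ), ∀ β : ℕ, β.Prime →
      ∀ (e : Fin ((q - 1) * 2 ^ q + 1) → Option (Fin n) → ℕ)
        (a' : Fin ((q - 1) * 2 ^ q + 1) → Fin q → ℕ), GoodExpL n q β e a' →
      ∀ H : ℕ, 1 ≤ H →
        (Set.ncard {z : ℤ × ℤ | IsCoprime z.1 z.2 ∧ |z.1| ≤ H ∧ |z.2| ≤ H ∧
          ¬ ∀ c : Ind n q → ℂ, IsScaling β c
            (fun i => (form (N (Sum.inl i)) (g (Sum.inl i)) z.1 z.2).natAbs *
              ∏ l, (form (f l).natDegree (f l) z.1 z.2).natAbs ^ e l i)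
            (fun j => (form (N (Sum.inr j)) (g (Sum.inr j)) z.1 z.2).natAbs *
              ∏ l, (form (f l).natDegree (f l) z.1 z.2).natAbs ^ a' l j) →
            NoAtypical K Γm m (scaled G a b c)} : ℝ) ≤
        C * ((H : ℝ) * (H : ℝ) ^ ((k : ℝ) / β) * (1 + Real.log H) ^ E) := by
  classical
  obtain ⟨D, C₀, hD⟩ := Pool.Agent.Results.MP_a325a5_ag.LegendreScaledImages.result K N₀ n q m G a b dg hY Γm hΓm
  obtain ⟨C, E, hC⟩ := Pool.Agent.Q116.ZE.pair_exceptions f k hf hcop g hg N hN hfg D
  refine ⟨C, E, fun β hβ e a' hea H hH => ?_⟩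
  obtain ⟨hmain, -⟩ := hD β hβ.pos
  refine le_trans (Nat.cast_le.2 (Set.ncard_le_ncard ?_ ?_)) (hC β hβ.one_lt.le H hH)
  · rintro ⟨s, t⟩ ⟨h1, h2, h3, h4⟩
    refine ⟨h1, h2, h3, fun hgood => h4 fun c hc => hmain c _ _ hc ?_⟩
    obtain ⟨g1, g2, p, hp⟩ := hgood
    refine Pool.Agent.Q116.ZE.spreadL_of_exps hea
      (u := fun l => (form (f l).natDegree (f l) s t).natAbs)
      (fun l => Int.natAbs_ne_zero.2 (g1 l))
      (fun i => Int.natAbs_ne_zero.2 (g2 _)) (fun j => Int.natAbs_ne_zero.2 (g2 _)) p
      (fun l => ⟨(hp l).1.1, (hp l).1.2.1⟩) (fun l => ?_)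
      (fun l => (hβ.coprime_iff_not_dvd).2 (hp l).1.2.2) (fun l => (hp l).2.1)
      (fun l i => (hp l).2.2 _) (fun l j => (hp l).2.2 _)
    by_contra h
    have h5 : (Pool.Agent.Y670.RD.fv (f l).natDegree (f l) s t).natAbs.factorization (p l) = 0 :=
      Nat.factorization_eq_zero_of_not_dvd h
    exact (hp l).1.2.2 (by rw [h5]; exact dvd_zero β)
  · refine ((Set.finite_Icc (-(H : ℤ)) H).prod (Set.finite_Icc (-(H : ℤ)) H)).subset ?_
    rintro ⟨s, t⟩ ⟨-, h2, h3, -⟩
    exact ⟨abs_le.1 h2, abs_le.1 h3⟩

end Pool.Agent.Results.MP_eeb1a4_ag.LegendreBinaryForms
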