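import Pool.Agent.Q57.ZP.HodB
import Pool.Agent.Q57.ZP.Par
import Pool.Agent.W282.LF.Top

/-!
# MP_eeb1a4_ag: Zilber-Pink for variations of mixed Hodge structures given by families of elliptic
curves with level structures and units, for all but finitely many members of one-parameter families
of bases and of maps to modular curves, scaled by arbitrary units

**The variations.** Let `K ⊂ ℂ` be a countable field, and let
* `B_t ⊆ P^N` be a family of projective algebraic sets with one parameter `t`, defined by forms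
  `G l` with coefficients in `K[t]`,
* `f_i = A_i / B_i` quotients of forms of the same degree `δ_i` with coefficients in `K[t]`, one for
  every `i = 1, …, n` (modular part) and every `j = 1, …, k` (torus part),
* `g_i` functions on the upper half plane which are integral over `K[jj]`, `jj = j = E₄³ / Δ` the
  elliptic modular function: `R_i (g_i (z), jj (z)) = 0` with polynomials `R_i` monic in the first
  variable. For example `g_i = jj`, or a Hauptmodul with its pole at a cusp of a modular curve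
  `X_i = Γ_i \ ℍ` of genus `0` of any level (`λ`, …); nothing else is used about `g_i`,
* `c_i ∈ K[t]` nonzero polynomials, and `w_i` nonzero numbers.

Let `X_{t,w}` (`total`) be the set of all points `(y, z, u)` of `B_t × ℍ^n × (ℂ^×)^k` such that
`w_i c_i (t) g_i (z_i) = f_i (y)` and `w_j c_j (t) u_j = f_j (y)` (with the denominators cleared). If
the `g_i` are Hauptmoduln, then its image `S_{t,w}` in `B_t × X_1 × … × X_n × (ℂ^×)^k` is an open
part of `B_t`, with the maps `f_i / (w_i c_i (t))` to the modular curves `X_i` and to `ℂ^×`. It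
carries the admissible graded-polarizable variation of mixed Hodge structures `𝕍 = ⊕ 𝕍_i ⊕ ⊕ 𝕌_j`,
where `𝕍_i` is the pull-back of a variation on `X_i` with period domain `ℍ` (`R¹π_* ℤ` of a family of
elliptic curves with level structure, `R²π_* ℤ` of a family of K3 surfaces of Picard number `19`, and
so on), and `𝕌_j` is the extension of `ℤ` by `ℤ(1)` given by the unit `u_j`. The period map `Φ` of
`𝕍` is (up to finite maps) the map to the mixed Shimura variety `Y(1)^n × G_m^k` given by
`jj z_1, …, jj z_n, u_1, …, u_k`. Its special subvarieties are the products `Z × C` of a special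
subvariety `Z` of `Y(1)^n` and a torsion coset `C`. More generally we allow constant coordinates of `Z`
which are integral over `ℤ[Γ]`, and cosets by points `η` with `η_j`, `1 / η_j` integral over `ℤ[Γ]`,
for any finite set `Γ` of numbers algebraic over `K` (`InSpecial`).

**Multipliers.** Let `F` and `P` be finite sets of complex numbers algebraic over `K`, and let `R_t` be
the ring generated by `F`, `t` and the numbers `1 / (t - b)`, `b ∈ P`. The multipliers `w_i` are
arbitrary units of `R_t`, independent of each other: for instance arbitrary `S`-units, arbitrary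
powers of the `t - b`, and arbitrary powers of `v`, if `t = u / v` with coprime `u`, `v`.

**Degenerate members.** Let `D_1, …, D_M` be finite sets of complex numbers algebraic over `K`, disjoint
from `P`, such that for all `α` in `D_l`
* no point of `B_α` lies on `m + 1` of the divisors of the `f_i` (at `t = α`) and the coordinate
  hyperplanes (`InGeneralPosition`), and
* the `c_i` have zeros at `α`, of orders `e_i (α) > 0`, and these orders are independent
  (`IndependentOrders`): for the modular coordinates `q e_i (α) e_j (α) e_i (α') e_j (α')` is not a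
  square for `α` in `D_l` and `α'` in `D_l'`, `l ≠ l'`, `i ≠ j`, `1 ≤ q ≤ T^8`, where `T` bounds the
  degrees of the `R_i` (`T = 1` for `g_i = jj`), and for the torus coordinates the vectors
  `(e_j (α_l))_j` span `ℚ^k` if `α_l` is in `D_l` for at least `k` of the `l`.

**Theorem.** Let `L = n (n - 1) / 2 + k 2^k`. For all but finitely many
1. `t` in the field generated by `F`, if the union of any `M - L` or more of the sets `D_l` has at least
   three elements,
2. `t` in the ring generated by `F`, if the union of any `M - L` or more of the sets `D_l` has at least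
   two elements,
3. units `t` of the ring generated by `F`, if the union of any `M - L` or more of the sets `D_l`
   contains a nonzero number,
4. algebraic numbers `t` of degree at most `d`, if `L + 1 + 2 d ≤ M` and there are distinct rational
   numbers `α_l` in the `D_l`,
5. complex numbers `t` of which some power `t^a`, `a > 0`, is rational, if `L + 3 ≤ M` and there are
   nonzero rational numbers `α_l` in the `D_l` with distinct absolute values,
6. roots of unity `t`, if `L + 1 ≤ M` and there are rational numbers `α_l` in the `D_l`, `|α_l| ≠ 0, 1`,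

and for ALL `w` in `(R_t^×)^(n + k)` there are no atypical intersections: for every `ρ` every
irreducible closed subset `W` of the intersection of `Φ (S_{t,w})` with the union of all special
subvarieties of codimension at least `ρ` has dimension at most `m - ρ`, and the same bound holds for
the irreducible closed subsets `W` of `Φ⁻¹ (Z × C)`, `codim (Z × C) ≥ ρ`. For `ρ = 0` it follows
that `S_{t,w}` has dimension at most `m`. It follows that
`codim Φ (W) ≥ codim Φ (S) + codim (Z × C)` for all special subvarieties `W` for `𝕍` of all components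
`S` of `S_{t,w}` of dimension `m` (`W` a component of `Φ⁻¹ (Z × C)`): the fibres of `Φ` on `W` have at
least the dimension `f` of the general fibres of `Φ` on `S`, so
`dim Φ (W) ≤ dim S - ρ - f = dim Φ (S) - ρ`. So every special subvariety is typical, and the conclusion
of the conjecture holds for `𝕍`: its atypical Hodge locus is empty.

The finite exceptional set of the `t` does not depend on `w`. The starting files for this problem
treat a positive proportion of all forms with integral coefficients (`RandomMixedLevelStructures`).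
-/

set_option autoImplicit false

namespace Pool.Agent.Results.MP_eeb1a4_ag.TwistedFamilies

open MvPolynomial H294ZP UpperHalfPlane Pool.Agent.W282.ZP
open Pool.Agent.Results.MP_a325a5_ag.FinitelyGeneratedFields (SpecialVariety coset
  IndependentOrders evalAt OnB valueAt)

/-- The total space `X_{t,w}`: the points `(y, z, u)` of `B_t × ℍ^n × (ℂ^×)^k` such that
`w_i c_i (t) B_i (y) g_i (z_i) = A_i (y)` and `w_j c_j (t) B_j (y) u_j = A_j (y)`. -/
def total {K : Subfield ℂ} (t : ℂ) {N n k : ℕ} {κ : Type}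
    (G : κ → MvPolynomial (Fin (N + 1)) (Polynomial K))
    (A B : Fin n ⊕ Fin k → MvPolynomial (Fin (N + 1)) (Polynomial K))
    (g : Fin n → ℍ → ℂ) (c : Fin n ⊕ Fin k → Polynomial K)
    (w : Fin n ⊕ Fin k → ℂ) : Set ((Fin (N + 1) → ℂ) × (Fin n → ℍ) × (Fin k → ℂ)) :=
  {p | OnB t G p.1 ∧ (∀ j, p.2.2 j ≠ 0) ∧
    (∀ i, w (Sum.inl i) * evalAt K t (c (Sum.inl i)) *
      eval₂ (evalAt K t) p.1 (B (Sum.inl i)) * g i (p.2.1 i) =
        eval₂ (evalAt K t) p.1 (A (Sum.inl i))) ∧
    ∀ j, w (Sum.inr j) * evalAt K t (c (Sum.inr j)) *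
      eval₂ (evalAt K t) p.1 (B (Sum.inr j)) * p.2.2 j = eval₂ (evalAt K t) p.1 (A (Sum.inr j))}

/-- The point `(x, u)` of `Y(1)^n × G_m^k` is in a special subvariety `Z × C` of codimension at least
`ρ`; the codimension is `n - r + rank M`, where `r = dim Z` and `M` is the module of the exponents of
the equations of `C`. -/
def InSpecial (Γ : Finset ℂ) {n k : ℕ} (x : Fin n → ℂ) (u : Fin k → ℂ) (ρ : ℕ) : Prop :=
  ∃ (r : ℕ) (Z : SpecialVariety (algebraMap (Algebra.adjoin ℤ (Γ : Set ℂ)) ℂ) n r)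
    (M : Submodule ℤ (Fin k → ℤ)) (η : Fin k → ℂ),
    (∀ j, η j ≠ 0 ∧ (algebraMap (Algebra.adjoin ℤ (Γ : Set ℂ)) ℂ).IsIntegralElem (η j) ∧
      (algebraMap (Algebra.adjoin ℤ (Γ : Set ℂ)) ℂ).IsIntegralElem (η j)⁻¹) ∧
    ρ + r ≤ n + Module.finrank ℤ M ∧ x ∈ Z.locus ∧ u ∈ coset M η

/-- The coordinates `(jj z_1, …, jj z_n, u_1, …, u_k)`. -/
noncomputable def coords {n k : ℕ} (z : Fin n → ℍ) (u : Fin k → ℂ) : Fin n ⊕ Fin k → ℂ :=
  Sum.elim (fun i => jj (z i)) u

/-- For all `ρ` every irreducible closed subset `W` of the intersection of the image of `X` in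
`Y(1)^n × G_m^k` with the union of the special subvarieties of codimension at least `ρ` satisfies
`dim W + ρ ≤ m`, and the same holds for the irreducible closed subsets of the set of all points
`(y, jj z, u)` with `(y, z, u)` in `X`, such that `(jj z, u)` is in this union.

Here `W` is more precisely an irreducible closed set of vectors, such that all vectors in `W`
outside of some hypersurface `p = 0`, which does not contain `W`, are the vectors of coordinates
(numbered in any way) of such points `(jj z, u)`, respectively `(y, jj z, u)` over the affine part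
`y_{j₀} = 1` of `P^N`. -/
def NoAtypical (Γ : Finset ℂ) {N n k : ℕ}
    (X : Set ((Fin (N + 1) → ℂ) × (Fin n → ℍ) × (Fin k → ℂ))) (m : ℕ) : Prop :=
  ∀ ρ : ℕ,
    (∀ (s : ℕ) (σ : Fin s ≃ Fin n ⊕ Fin k) (W : Set (Fin s → ℂ)) (p : MvPolynomial (Fin s) ℂ),
      (∀ w ∈ W, eval w p ≠ 0 → ∃ z ∈ X, InSpecial Γ (fun i => jj (z.2.1 i)) z.2.2 ρ ∧
        ∀ i, w i = coords z.2.1 z.2.2 (σ i)) →
      zcl W ⊆ W → (idealOf W).IsPrime → p ∉ idealOf W →
      zdim W + (ρ : Cardinal) ≤ (m : Cardinal)) ∧
    ∀ (j₀ : Fin (N + 1)) (s : ℕ) (σ : Fin s ≃ Fin (N + 1) ⊕ (Fin n ⊕ Fin k))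
      (W : Set (Fin s → ℂ)) (p : MvPolynomial (Fin s) ℂ),
      (∀ w ∈ W, eval w p ≠ 0 →
        ∃ z ∈ X, z.1 j₀ = 1 ∧ InSpecial Γ (fun i => jj (z.2.1 i)) z.2.2 ρ ∧
          ∀ i, w i = (Sum.elim z.1 (coords z.2.1 z.2.2) : Fin (N + 1) ⊕ (Fin n ⊕ Fin k) → ℂ)
            (σ i)) →
      zcl W ⊆ W → (idealOf W).IsPrime → p ∉ idealOf W →
      zdim W + (ρ : Cardinal) ≤ (m : Cardinal)

/-- No point of `B_t` lies on `m + 1` of the divisors of the `A i / B i` and of the coordinate
hyperplanes. -/
def InGeneralPosition {K : Subfield ℂ} (t : ℂ) {N n k : ℕ} {κ : Type} (m : ℕ)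
    (G : κ → MvPolynomial (Fin (N + 1)) (Polynomial K))
    (A B : Fin n ⊕ Fin k → MvPolynomial (Fin (N + 1)) (Polynomial K)) : Prop :=
  ∀ I : Finset ((Fin n ⊕ Fin k) ⊕ Fin (N + 1)), I.card = m + 1 → ∀ y : Fin (N + 1) → ℂ, OnB t G y →
    ∃ i ∈ I, Sum.elim (fun i => eval₂ (evalAt K t) y (A i) * eval₂ (evalAt K t) y (B i)) y i ≠ 0

/-- `z` is a unit of the ring generated by `S`. -/
def IsUnitOf (S : Set ℂ) (z : ℂ) : Prop :=
  z ≠ 0 ∧ z ∈ Subring.closure S ∧ z⁻¹ ∈ Subring.closure S

/-- The generators `F`, `t` and `1 / (t - b)`, `b ∈ P`, of the ring `R_t`. -/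
def generators (F P : Finset ℂ) (t : ℂ) : Set ℂ :=
  insert t ((F : Set ℂ) ∪ (fun b => (t - b)⁻¹) '' (P : Set ℂ))

/-- For some vector `w` of units of `R_t` the variation on `S_{t,w}` has an atypical special
subvariety. -/
def SomeAtypical {K : Subfield ℂ} (Γ F P : Finset ℂ) {N n k : ℕ} (m : ℕ) {κ : Type}
    (G : κ → MvPolynomial (Fin (N + 1)) (Polynomial K))
    (A B : Fin n ⊕ Fin k → MvPolynomial (Fin (N + 1)) (Polynomial K))
    (g : Fin n → ℍ → ℂ) (c : Fin n ⊕ Fin k → Polynomial K) (t : ℂ) : Prop :=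
  ∃ w : Fin n ⊕ Fin k → ℂ, (∀ i, IsUnitOf (generators F P t) (w i)) ∧
    ¬ NoAtypical Γ (total t G A B g c w) m

/-- The map `(y, z, u) ↦ (y / y_a, z, u)`. -/
theorem scale_mem {K : Subfield ℂ} {t : ℂ} {N n k : ℕ} {κ : Type}
    {G : κ → MvPolynomial (Fin (N + 1)) (Polynomial K)} (hG : ∀ l, ∃ e, (G l).IsHomogeneous e)
    {A B : Fin n ⊕ Fin k → MvPolynomial (Fin (N + 1)) (Polynomial K)} {δ : Fin n ⊕ Fin k → ℕ}
    (hA : ∀ i, (A i).IsHomogeneous (δ i)) (hB : ∀ i, (B i).IsHomogeneous (δ i))
    {g : Fin n → ℍ → ℂ} {c : Fin n ⊕ Fin k → Polynomial K} {w : Fin n ⊕ Fin k → ℂ}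
    {y : Fin (N + 1) → ℂ} {z : Fin n → ℍ} {u : Fin k → ℂ}
    (h : (y, z, u) ∈ total t G A B g c w) {a : ℂ} (ha : a ≠ 0) :
    (a • y, z, u) ∈ total t G A B g c w := by
  have hsm : ∀ (P : MvPolynomial (Fin (N + 1)) (Polynomial K)) (f : ℕ), P.IsHomogeneous f →
      eval₂ (evalAt K t) (a • y) P = a ^ f * eval₂ (evalAt K t) y P := by
    intro P f hP
    have h1 := Pool.Agent.W466.ZC.eval_smul (hP.map (evalAt K t)) a y
    rwa [eval_map, eval_map] at h1
  obtain ⟨⟨h1, h2⟩, h3, h4, h5⟩ := h
  refine ⟨⟨smul_ne_zero ha h1, fun l => ?_⟩, h3, fun i => ?_, fun j => ?_⟩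
  · obtain ⟨e, he⟩ := hG l
    change eval₂ (evalAt K t) (a • y) (G l) = 0
    rw [hsm _ _ he, h2 l, mul_zero]
  · change _ * eval₂ (evalAt K t) (a • y) (B (Sum.inl i)) * _ =
      eval₂ (evalAt K t) (a • y) (A (Sum.inl i))
    rw [hsm _ _ (hA _), hsm _ _ (hB _), ← h4 i]
    ring
  · change _ * eval₂ (evalAt K t) (a • y) (B (Sum.inr j)) * _ =
      eval₂ (evalAt K t) (a • y) (A (Sum.inr j))
    rw [hsm _ _ (hA _), hsm _ _ (hB _), ← h5 j]
    ring

/-- From transcendence degrees to dimensions. -/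
theorem no_atypical {K : Subfield ℂ} [Countable K] (Γ : Finset ℂ) {t : ℂ} {N n k m : ℕ} {κ : Type}
    {G : κ → MvPolynomial (Fin (N + 1)) (Polynomial K)} (hG : ∀ l, ∃ e, (G l).IsHomogeneous e)
    {A B : Fin n ⊕ Fin k → MvPolynomial (Fin (N + 1)) (Polynomial K)} {δ : Fin n ⊕ Fin k → ℕ}
    (hA : ∀ i, (A i).IsHomogeneous (δ i)) (hB : ∀ i, (B i).IsHomogeneous (δ i))
    {g : Fin n → ℍ → ℂ} {c : Fin n ⊕ Fin k → Polynomial K} {w : Fin n ⊕ Fin k → ℂ}
    (hkey : ∀ (y : Fin (N + 1) → ℂ) (z : Fin n → ℍ) (u : Fin k → ℂ) (j0 : Fin (N + 1)) (ρ : ℕ),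
      y j0 = 1 → (y, z, u) ∈ total t G A B g c w → InSpecial Γ (fun i => jj (z i)) u ρ →
      ∀ (S : Finset (Fin n ⊕ Fin k)) (T1 : Finset (Fin (N + 1))),
      AlgebraicIndependent K (Sum.elim (fun i : S => coords z u i) (fun a : T1 => y a)) →
      S.card + T1.card + ρ ≤ m) :
    NoAtypical Γ (total t G A B g c w) m := by
  classical
  have hfinal : ∀ {T ρ : ℕ} {z : Cardinal}, z ≤ (T : Cardinal) → T + ρ ≤ m →
      z + (ρ : Cardinal) ≤ (m : Cardinal) := by
    intro T ρ z hz h
    calc z + (ρ : Cardinal) ≤ (T : Cardinal) + (ρ : Cardinal) := by gcongr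
      _ = ((T + ρ : ℕ) : Cardinal) := by push_cast; rfl
      _ ≤ (m : Cardinal) := by exact_mod_cast h
  intro ρ
  constructor
  · intro s σ W p hW hcl hprime hp
    obtain ⟨v, hvW, hpv, T, hT, hdimW⟩ :=
      Pool.Agent.W282.LF.generic_dim_open K W hprime hcl p hp
    obtain ⟨⟨y, z, u⟩, hyX, hS, hv⟩ := hW v hvW hpv
    obtain ⟨j0, hj0⟩ : ∃ j0, y j0 ≠ 0 := by
      by_contra hcon
      push Not at hcon
      exact hyX.1.1 (funext hcon)
    refine hfinal hdimW ?_
    have h3 := hkey ((y j0)⁻¹ • y) z u j0 ρ (by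
      rw [Pi.smul_apply, smul_eq_mul, inv_mul_cancel₀ hj0]) (scale_mem hG hA hB hyX
        (inv_ne_zero hj0)) hS (T.map σ.toEmbedding) ∅ (by
        have hTT : ∀ j, j ∈ T.map σ.toEmbedding → σ.symm j ∈ T := by
          intro j hj
          obtain ⟨t, ht, h⟩ := Finset.mem_map.1 hj
          rw [← h]
          simpa using ht
        let g' : (T.map σ.toEmbedding) ⊕ (∅ : Finset (Fin (N + 1))) → T := Sum.elim
          (fun j => ⟨σ.symm j, hTT _ j.2⟩) (fun j => absurd j.2 (Finset.notMem_empty _))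
        have hg : Function.Injective g' := by
          rintro (x | x) (y | y) h
          · have h1 := congrArg Subtype.val h
            exact congrArg Sum.inl (Subtype.ext (σ.symm.injective h1))
          · exact absurd y.2 (Finset.notMem_empty _)
          · exact absurd x.2 (Finset.notMem_empty _)
          · exact absurd x.2 (Finset.notMem_empty _)
        have h5 := hT.comp g' hg
        convert h5 using 1
        funext j
        rcases j with j | j
        · change coords z u j = v (σ.symm j)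
          rw [hv, Equiv.apply_symm_apply]
        · exact absurd j.2 (Finset.notMem_empty _))
    rw [Finset.card_empty, add_zero, Finset.card_map] at h3
    exact h3
  · intro j₀ s σ W p hW hcl hprime hp
    obtain ⟨v, hvW, hpv, T, hT, hdimW⟩ :=
      Pool.Agent.W282.LF.generic_dim_open K W hprime hcl p hp
    obtain ⟨⟨y, z, u⟩, hzX, hzj, hzS, hv⟩ := hW v hvW hpv
    set T' : Finset (Fin (N + 1) ⊕ (Fin n ⊕ Fin k)) := T.map σ.toEmbedding with hT'
    have hTT : ∀ j, j ∈ T' → σ.symm j ∈ T := by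
      intro j hj
      obtain ⟨t, ht, h⟩ := Finset.mem_map.1 hj
      rw [← h]
      simpa using ht
    let g' : T'.toRight ⊕ T'.toLeft → T := Sum.elim
      (fun j => ⟨σ.symm (Sum.inr j), hTT _ (Finset.mem_toRight.1 j.2)⟩)
      (fun j => ⟨σ.symm (Sum.inl j), hTT _ (Finset.mem_toLeft.1 j.2)⟩)
    have hg : Function.Injective g' := by
      rintro (x | x) (y | y) h
      · have h1 := congrArg Subtype.val h
        have h2 := Sum.inr_injective (σ.symm.injective h1)
        rw [Subtype.ext h2]
      · have h1 := congrArg Subtype.val h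
        have h2 := σ.symm.injective h1
        exact absurd h2 Sum.inr_ne_inl
      · have h1 := congrArg Subtype.val h
        have h2 := σ.symm.injective h1
        exact absurd h2 Sum.inl_ne_inr
      · have h1 := congrArg Subtype.val h
        have h2 := Sum.inl_injective (σ.symm.injective h1)
        rw [Subtype.ext h2]
    refine hfinal hdimW ?_
    have h3 := hkey y z u j₀ ρ hzj hzX hzS T'.toRight T'.toLeft (by
        have h5 := hT.comp g' hg
        convert h5 using 1
        funext j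
        rcases j with j | j
        · change coords z u j = v (σ.symm (Sum.inr j))
          rw [hv, Equiv.apply_symm_apply]
          rfl
        · change y j = v (σ.symm (Sum.inl j))
          rw [hv, Equiv.apply_symm_apply]
          rfl)
    have hT2 : T'.toLeft.card + T'.toRight.card = T.card := by
      rw [Finset.card_toLeft_add_card_toRight, hT', Finset.card_map]
    omega

/-- Variations of mixed Hodge structures over one-parameter families of bases and maps to modular
curves and tori, which degenerate at sufficiently many algebraic values of the parameter, scaled by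
arbitrary units: only for finitely many parameters in a finitely generated field, in a finitely
generated ring, in its group of units, of bounded degree, in the division group of the rational
numbers, or in the group of roots of unity, there is a scaling with an atypical special
subvariety. -/
theorem result (K : Subfield ℂ) [Countable K] (κ : Type) [Finite κ] (N n k m M T : ℕ)
    (G : κ → MvPolynomial (Fin (N + 1)) (Polynomial K)) (hG : ∀ l, ∃ e, (G l).IsHomogeneous e)
    (A B : Fin n ⊕ Fin k → MvPolynomial (Fin (N + 1)) (Polynomial K)) (δ : Fin n ⊕ Fin k → ℕ)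
    (hA : ∀ i, (A i).IsHomogeneous (δ i)) (hB : ∀ i, (B i).IsHomogeneous (δ i))
    (R : Fin n → Polynomial (Polynomial K)) (hR : ∀ i, (R i).Monic)
    (hT : ∀ i u w, ((R i).coeff u).coeff w ≠ 0 → u ≤ T ∧ w ≤ T)
    (g : Fin n → ℍ → ℂ) (hg : ∀ i z, valueAt (R i) (g i z) (jj z) = 0)
    (c : Fin n ⊕ Fin k → Polynomial K) (hc : ∀ i, c i ≠ 0) (D : Fin M → Finset ℂ)
    (hD : ∀ l, ∀ α ∈ D l, IsAlgebraic K α) (hind : IndependentOrders T c D)
    (hpos : ∀ l, ∀ α ∈ D l, InGeneralPosition α m G A B)
    (Γ : Finset ℂ) (hΓ : ∀ γ ∈ Γ, IsAlgebraic K γ) (F : Finset ℂ)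
    (hF : ∀ z ∈ F, IsAlgebraic K z) (P : Finset ℂ) (hP : ∀ z ∈ P, IsAlgebraic K z)
    (hPD : ∀ l, ∀ α ∈ D l, α ∉ P) :
    ((∀ I : Finset (Fin M), M ≤ I.card + (n.choose 2 + k * 2 ^ k) → 3 ≤ (I.biUnion D).card) →
      {t : ℂ | t ∈ Subfield.closure (F : Set ℂ) ∧ SomeAtypical Γ F P m G A B g c t}.Finite) ∧
    ((∀ I : Finset (Fin M), M ≤ I.card + (n.choose 2 + k * 2 ^ k) → 2 ≤ (I.biUnion D).card) →
      {t : ℂ | t ∈ Subring.closure (F : Set ℂ) ∧ SomeAtypical Γ F P m G A B g c t}.Finite) ∧
    ((∀ I : Finset (Fin M), M ≤ I.card + (n.choose 2 + k * 2 ^ k) →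
        ∃ α ∈ I.biUnion D, α ≠ 0) →
      {t : ℂ | IsUnitOf (F : Set ℂ) t ∧ SomeAtypical Γ F P m G A B g c t}.Finite) ∧
    ∀ α : Fin M → ℚ, (∀ l, ((α l : ℚ) : ℂ) ∈ D l) →
      (Function.Injective α → ∀ d : ℕ, n.choose 2 + k * 2 ^ k + 1 + 2 * d ≤ M →
        {t : ℂ | (∃ Q : Polynomial ℤ, Q ≠ 0 ∧ Q.natDegree ≤ d ∧ Polynomial.aeval t Q = 0) ∧
          SomeAtypical Γ F P m G A B g c t}.Finite) ∧
      ((∀ l, α l ≠ 0) → (∀ l l', l ≠ l' → |α l| ≠ |α l'|) →
        n.choose 2 + k * 2 ^ k + 1 + 2 ≤ M →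
        {t : ℂ | (∃ a : ℕ, 0 < a ∧ ∃ q : ℚ, t ^ a = (q : ℂ)) ∧
          SomeAtypical Γ F P m G A B g c t}.Finite) ∧
      ((∀ l, α l ≠ 0 ∧ |α l| ≠ 1) → n.choose 2 + k * 2 ^ k + 1 ≤ M →
        {t : ℂ | (∃ a : ℕ, 0 < a ∧ t ^ a = 1) ∧ SomeAtypical Γ F P m G A B g c t}.Finite) := by
  classical
  obtain ⟨W, hFW, hcrit⟩ := Pool.Agent.Q57.ZP.tot_crit K κ N n k m M T G hG A B δ hA hB R hR hT c hc
    D hD hind hpos Γ hΓ F hF P hP hPD
  have hE₀ : ∀ t, IsAlgebraic K t → t ∉ Finset.univ.biUnion D →
      (∃ f : Fin (n.choose 2 + k * 2 ^ k + 1) → Fin M,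
      Function.Injective f ∧ ∀ l, ∃ a ∈ D (f l), ¬ Pool.Agent.Y910.Z.Bad (W : Set ℂ) t a) →
      ¬ SomeAtypical Γ F P m G A B g c t := by
    rintro t ht htD hf ⟨w, hw, hno⟩
    refine hno (no_atypical Γ hG hA hB ?_)
    rintro y z u j0 ρ hj0 ⟨hy, hu0, h1, h2⟩ ⟨r, Z, Ms, η, hη, hρ, hxZ, huC⟩ S T1 hST
    have h3 := hcrit t ht htD w (fun i =>
      Pool.Agent.Q57.ZP.UnitOf.mono (Pool.Agent.Q57.ZP.gens_mono hFW t) (hw i)) hf r Z Ms η hη y j0
      hj0 hy (coords z u) (fun i => g i (z i)) hu0 (fun i => ⟨hg i _, h1 i⟩) h2 hxZ huC S T1 hST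
    omega
  have hE : ∀ t, t ∉ {t : ℂ | ¬ IsAlgebraic K t} ∪ ((Finset.univ.biUnion D : Finset ℂ) : Set ℂ) →
      (∃ f : Fin (n.choose 2 + k * 2 ^ k + 1) → Fin M,
      Function.Injective f ∧ ∀ l, ∃ a ∈ D (f l), ¬ Pool.Agent.Y910.Z.Bad (W : Set ℂ) t a) →
      t ∉ {t | SomeAtypical Γ F P m G A B g c t} := by
    intro t ht hf h
    rw [Set.mem_union, not_or] at ht
    exact hE₀ t (not_not.1 ht.1) (fun h => ht.2 (Finset.mem_coe.2 h)) hf h
  have hfin : ∀ Q : ℂ → Prop, {t : ℂ | Q t ∧ t ∈ {t : ℂ | ¬ IsAlgebraic K t}}.Finite →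
      {t : ℂ | Q t ∧ t ∈ {t : ℂ | ¬ IsAlgebraic K t} ∪
        ((Finset.univ.biUnion D : Finset ℂ) : Set ℂ)}.Finite := by
    intro Q h
    refine (h.union (Finset.univ.biUnion D).finite_toSet).subset ?_
    rintro t ⟨h1, h2 | h2⟩
    · exact Or.inl ⟨h1, h2⟩
    · exact Or.inr h2
  refine ⟨fun h => ?_, fun h => ?_, fun h => ?_, fun α hα => ?_⟩
  · exact Pool.Agent.Q57.ZP.finite_of_bad' (n.choose 2 + k * 2 ^ k + 1) W D _
      (fun I hI => Pool.Agent.Q57.ZP.fin_bad_field W F D I (h I (by omega))) _ _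
      (hfin _ (Pool.Agent.Q57.ZP.alg_field hF)) hE
  · exact Pool.Agent.Q57.ZP.finite_of_bad' (n.choose 2 + k * 2 ^ k + 1) W D _
      (fun I hI => Pool.Agent.Q57.ZP.fin_bad_ring W F D I (h I (by omega))) _ _
      (hfin _ (Pool.Agent.Q57.ZP.alg_ring hF)) hE
  · exact Pool.Agent.Q57.ZP.finite_of_bad' (n.choose 2 + k * 2 ^ k + 1) W D _
      (fun I hI => Pool.Agent.Q57.ZP.fin_bad_unit W F hFW D I (h I (by omega))) _ _
      (hfin _ (Pool.Agent.Q57.ZP.alg_unit hF)) hE
  · refine Pool.Agent.Q57.ZP.fin_par (L := n.choose 2 + k * 2 ^ k + 1) W D α hα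
      {t | SomeAtypical Γ F P m G A B g c t} ?_
    intro t htD htZ hf
    have htK : IsAlgebraic K t := htZ.extendScalars (algebraMap ℤ K).injective_int
    exact hE₀ t htK (fun h => htD (Finset.mem_coe.2 h)) hf

end Pool.Agent.Results.MP_eeb1a4_ag.TwistedFamilies
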