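import Pool.Agent.Q57.ZP.HodF

/-!
# MP_eeb1a4_ag: Zilber-Pink for variations of mixed Hodge structures given by families of elliptic
curves with level structures and units, for all but finitely many members of families of bases and
period maps over an elliptic curve, scaled by arbitrary units

**The parameters.** Let `a, b` be algebraic numbers with `4 a³ + 27 b² ≠ 0` and let `Curve a b` be the
set of the affine points `P = (x, y)` of the elliptic curve `y² = x³ + a x + b`. The order `e` of a
function `c ∈ ℂ[x, y]` at a point `Q` of it is defined by `c = loc^e g / h` with a local parameter `loc`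
and functions `g, h` which do not vanish at `Q` with coefficients algebraic over a given countable
field `K ⊂ ℂ` (`HasOrder`).

**The variations.** Let
* `B_t ⊆ P^N` be a family of projective algebraic sets, defined by forms `G l` with coefficients in
  `K[t]`, `f_i = A_i / B_i` quotients of forms of the same degree `δ_i` with coefficients in `K[t]`,
  one for every `i = 1, …, n` (modular part) and every `j = 1, …, k` (torus part), and
  `t = φ(P) = u(P) / v(P)` a rational function on the elliptic curve,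
* `g_i` functions on the upper half plane which are integral over `K[jj]`, `jj = j = E₄³ / Δ` the
  elliptic modular function: `R_i (g_i (z), jj (z)) = 0` with polynomials `R_i` monic in the first
  variable. For example `g_i = jj`, or a Hauptmodul with its pole at a cusp of a modular curve
  `X_i = Γ_i \ ℍ` of genus `0` of any level (`λ`, …); nothing else is used about `g_i`,
* `c_i ∈ ℂ[x, y]` functions on the elliptic curve, and `w_i` nonzero numbers.

Let `X_{P,w}` (`total`) be the set of all points `(y, z, u)` of `B_t × ℍ^n × (ℂ^×)^k`, `t = φ(P)`, such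
that `w_i c_i (P) g_i (z_i) = f_i (y)` and `w_j c_j (P) u_j = f_j (y)` (with the denominators cleared).
If the `g_i` are Hauptmoduln, then its image `S_{P,w}` in `B_t × X_1 × … × X_n × (ℂ^×)^k` is an open
part of `B_t`, with the maps `f_i / (w_i c_i (P))` to the modular curves `X_i` and to `ℂ^×`. It
carries the admissible graded-polarizable variation of mixed Hodge structures `𝕍 = ⊕ 𝕍_i ⊕ ⊕ 𝕌_j`,
where `𝕍_i` is the pull-back of a variation on `X_i` with period domain `ℍ` (`R¹π_* ℤ` of a family of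
elliptic curves with level structure, `R²π_* ℤ` of a family of K3 surfaces of Picard number `19`, and
so on), and `𝕌_j` is the extension of `ℤ` by `ℤ(1)` given by the unit `u_j`. The period map `Φ` of
`𝕍` is (up to finite maps) the map to the mixed Shimura variety `Y(1)^n × G_m^k` given by
`jj z_1, …, jj z_n, u_1, …, u_k`. Its special subvarieties are the products `Z × C` of a special
subvariety `Z` of `Y(1)^n` and a torsion coset `C`.

**Multipliers.** Let `F` be a finite set of numbers algebraic over `K`, `H` a finite set of functions in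
`ℂ[x, y]` with coefficients algebraic over `K`, and let `R_P` be the ring generated by `F`, the
coordinates of `P` and the numbers `h(P)⁻¹`, `h ∈ H` (`generators`). The multipliers `w_i` are arbitrary
units of the integral closure of `R_P` in `ℂ`, independent of each other: for instance arbitrary
units of the ring of all algebraic integers, arbitrary roots of `S`-units, and products of arbitrary,
also fractional, powers, positive or negative, of the values `h(P)`, `h ∈ H`. We also allow arbitrary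
constant coordinates of `Z` integral over `R_P`, and cosets by arbitrary units of the integral closure
of `R_P` instead of torsion cosets (`InSpecial`).

**Degenerate members.** Let `Q_1, …, Q_M`, `M ≥ n (n - 1) / 2 + k 2^k + 1`, be points of the elliptic
curve with algebraic coordinates, `v(Q_l) ≠ 0`, `h(Q_l) ≠ 0` for `h ∈ H`, such that
* no point of `B_t`, `t = φ(Q_l)`, lies on `m + 1` of the divisors of the `f_i` and the coordinate
  hyperplanes (`InGeneralPosition`), and
* the `c_i` have zeros at `Q_l`, of orders `e_li > 0`, and these orders are independent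
  (`IndependentOrders`): `q e_li e_lj e_l'i e_l'j` is not a square for `l ≠ l'`, `i ≠ j` modular
  coordinates, `1 ≤ q ≤ T^8`, where `T` bounds the degrees of the `R_i`, and for the torus coordinates
  any `k` of the vectors `(e_lj)_j` are linearly independent.

**Theorem.** For every number field `E`, for all but finitely many of the points `P` of the elliptic
curve over `E` and for ALL multipliers `w` there are no atypical intersections: for every `ρ` every
irreducible closed subset `W` of the intersection of `Φ (S_{P,w})` with the union of all special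
subvarieties of codimension at least `ρ` has dimension at most `m - ρ`, and the same bound holds for
the irreducible closed subsets `W` of `Φ⁻¹ (Z × C)`, `codim (Z × C) ≥ ρ`. For `ρ = 0` it follows
that `S_{P,w}` has dimension at most `m`. It follows that
`codim Φ (W) ≥ codim Φ (S) + codim (Z × C)` for all special subvarieties `W` for `𝕍` of all components
`S` of `S_{P,w}` of dimension `m` (`W` a component of `Φ⁻¹ (Z × C)`): the fibres of `Φ` on `W` have at
least the dimension `f` of the general fibres of `Φ` on `S`, so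
`dim Φ (W) ≤ dim S - ρ - f = dim Φ (S) - ρ`. So every special subvariety is typical, and the conclusion
of the conjecture holds for `𝕍`: its atypical Hodge locus is empty.

The finite exceptional set of the `P` does not depend on `w`. Our result `TwistedFamilies` of this problem
is over the projective line, needs two or more further degenerate members for the parameters in one
number field, and has multipliers in a finitely generated group.
-/

set_option autoImplicit false

namespace Pool.Agent.Results.MP_eeb1a4_ag.TwistsOverEllipticCurves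

open MvPolynomial H294ZP UpperHalfPlane Pool.Agent.W282.ZP
open Pool.Agent.Y199.SG.ZPZ (Curve value HasOrder)
open Pool.Agent.Results.MP_a325a5_ag.FinitelyGeneratedFields (SpecialVariety coset evalAt OnB
  valueAt)

/-- The total space: the points `(y, z, u)` of `B_t × ℍ^n × (ℂ^×)^k` such that
`lam_i B_i (y) g_i (z_i) = A_i (y)` and `lam_j B_j (y) u_j = A_j (y)`. -/
def total {K : Subfield ℂ} (t : ℂ) {N n k : ℕ} {κ : Type} (lam : Fin n ⊕ Fin k → ℂ)
    (G : κ → MvPolynomial (Fin (N + 1)) (Polynomial K))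
    (A B : Fin n ⊕ Fin k → MvPolynomial (Fin (N + 1)) (Polynomial K))
    (g : Fin n → ℍ → ℂ) : Set ((Fin (N + 1) → ℂ) × (Fin n → ℍ) × (Fin k → ℂ)) :=
  {p | OnB t G p.1 ∧ (∀ j, p.2.2 j ≠ 0) ∧
    (∀ i, lam (Sum.inl i) * eval₂ (evalAt K t) p.1 (B (Sum.inl i)) * g i (p.2.1 i) =
        eval₂ (evalAt K t) p.1 (A (Sum.inl i))) ∧
    ∀ j, lam (Sum.inr j) * eval₂ (evalAt K t) p.1 (B (Sum.inr j)) * p.2.2 j =
      eval₂ (evalAt K t) p.1 (A (Sum.inr j))}

/-- `z` is a unit of the integral closure in `ℂ` of the ring generated by `S`. -/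
def IsUnitOver (S : Set ℂ) (z : ℂ) : Prop :=
  z ≠ 0 ∧ IsIntegral (Algebra.adjoin ℤ S) z ∧ IsIntegral (Algebra.adjoin ℤ S) z⁻¹

/-- The point `(x, u)` of `Y(1)^n × G_m^k` is in a special subvariety `Z × C` of codimension at least
`ρ`; the codimension is `n - r + rank M`, where `r = dim Z` and `M` is the module of the exponents of
the equations of `C`. The constant coordinates of `Z` are special points or integral over the ring
generated by `U`, and `C` is a coset by a point whose coordinates are units of the integral closure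
of this ring. -/
def InSpecial (U : Set ℂ) {n k : ℕ} (x : Fin n → ℂ) (u : Fin k → ℂ) (ρ : ℕ) : Prop :=
  ∃ (r : ℕ) (Z : SpecialVariety (algebraMap (Algebra.adjoin ℤ U) ℂ) n r)
    (M : Submodule ℤ (Fin k → ℤ)) (η : Fin k → ℂ), (∀ j, IsUnitOver U (η j)) ∧
    ρ + r ≤ n + Module.finrank ℤ M ∧ x ∈ Z.locus ∧ u ∈ coset M η

/-- The coordinates `(jj z_1, …, jj z_n, u_1, …, u_k)`. -/
noncomputable def coords {n k : ℕ} (z : Fin n → ℍ) (u : Fin k → ℂ) : Fin n ⊕ Fin k → ℂ :=
  Sum.elim (fun i => jj (z i)) u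

/-- For all `ρ` every irreducible closed subset `W` of the intersection of the image of `X` in
`Y(1)^n × G_m^k` with the union of the special subvarieties of codimension at least `ρ` satisfies
`dim W + ρ ≤ m`, and the same holds for the irreducible closed subsets of the set of all points
`(y, jj z, u)` with `(y, z, u)` in `X`, such that `(jj z, u)` is in this union.

Here `W` is more precisely an irreducible closed set of vectors, such that all vectors in `W`
outside of some hypersurface `p = 0`, which does not contain `W`, are the vectors of coordinates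
(numbered in any way) of such points `(jj z, u)`, respectively `(y, jj z, u)` over the affine part
`y_{j₀} = 1` of `P^N`. -/
def NoAtypical (U : Set ℂ) {N n k : ℕ}
    (X : Set ((Fin (N + 1) → ℂ) × (Fin n → ℍ) × (Fin k → ℂ))) (m : ℕ) : Prop :=
  ∀ ρ : ℕ,
    (∀ (s : ℕ) (σ : Fin s ≃ Fin n ⊕ Fin k) (W : Set (Fin s → ℂ)) (p : MvPolynomial (Fin s) ℂ),
      (∀ w ∈ W, eval w p ≠ 0 → ∃ z ∈ X, InSpecial U (fun i => jj (z.2.1 i)) z.2.2 ρ ∧
        ∀ i, w i = coords z.2.1 z.2.2 (σ i)) →
      zcl W ⊆ W → (idealOf W).IsPrime → p ∉ idealOf W →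
      zdim W + (ρ : Cardinal) ≤ (m : Cardinal)) ∧
    ∀ (j₀ : Fin (N + 1)) (s : ℕ) (σ : Fin s ≃ Fin (N + 1) ⊕ (Fin n ⊕ Fin k))
      (W : Set (Fin s → ℂ)) (p : MvPolynomial (Fin s) ℂ),
      (∀ w ∈ W, eval w p ≠ 0 →
        ∃ z ∈ X, z.1 j₀ = 1 ∧ InSpecial U (fun i => jj (z.2.1 i)) z.2.2 ρ ∧
          ∀ i, w i = (Sum.elim z.1 (coords z.2.1 z.2.2) : Fin (N + 1) ⊕ (Fin n ⊕ Fin k) → ℂ)
            (σ i)) →
      zcl W ⊆ W → (idealOf W).IsPrime → p ∉ idealOf W →
      zdim W + (ρ : Cardinal) ≤ (m : Cardinal)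

/-- No point of `B_t` lies on `m + 1` of the divisors of the `A i / B i` and of the coordinate
hyperplanes. -/
def InGeneralPosition {K : Subfield ℂ} (t : ℂ) {N n k : ℕ} {κ : Type} (m : ℕ)
    (G : κ → MvPolynomial (Fin (N + 1)) (Polynomial K))
    (A B : Fin n ⊕ Fin k → MvPolynomial (Fin (N + 1)) (Polynomial K)) : Prop :=
  ∀ I : Finset ((Fin n ⊕ Fin k) ⊕ Fin (N + 1)), I.card = m + 1 → ∀ y : Fin (N + 1) → ℂ, OnB t G y →
    ∃ i ∈ I, Sum.elim (fun i => eval₂ (evalAt K t) y (A i) * eval₂ (evalAt K t) y (B i)) y i ≠ 0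

/-- The orders are positive and independent. -/
def IndependentOrders {n k M : ℕ} (T : ℕ) (e : Fin M → Fin n ⊕ Fin k → ℕ) : Prop :=
  (∀ l i, 0 < e l i) ∧
  (∀ l l', l ≠ l' → ∀ i j : Fin n, i ≠ j → ∀ q, 0 < q → q ≤ T ^ 8 →
    ¬ IsSquare (q * (e l (Sum.inl i) * e l (Sum.inl j) *
      (e l' (Sum.inl i) * e l' (Sum.inl j))))) ∧
  ∀ (s : Finset (Fin M)) (b : Fin k → ℤ), k ≤ s.card →
    (∀ l ∈ s, ∑ j, b j * (e l (Sum.inr j) : ℤ) = 0) → b = 0

/-- The generators of the ring `R_P`: the coordinates of `P`, the elements of `F` and the inverses of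
the values at `P` of the functions in `H`. -/
def generators (F : Finset ℂ) (H : Finset (MvPolynomial (Fin 2) ℂ)) (P : Fin 2 → ℂ) : Set ℂ :=
  Set.range P ∪ ((F : Set ℂ) ∪ (fun h => (eval P h)⁻¹) '' (H : Set _))

/-- The map `(y, z, u) ↦ (y / y_a, z, u)`. -/
theorem scale_mem {K : Subfield ℂ} {t : ℂ} {N n k : ℕ} {κ : Type} {lam : Fin n ⊕ Fin k → ℂ}
    {G : κ → MvPolynomial (Fin (N + 1)) (Polynomial K)} (hG : ∀ l, ∃ e, (G l).IsHomogeneous e)
    {A B : Fin n ⊕ Fin k → MvPolynomial (Fin (N + 1)) (Polynomial K)} {δ : Fin n ⊕ Fin k → ℕ}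
    (hA : ∀ i, (A i).IsHomogeneous (δ i)) (hB : ∀ i, (B i).IsHomogeneous (δ i))
    {g : Fin n → ℍ → ℂ} {y : Fin (N + 1) → ℂ} {z : Fin n → ℍ} {u : Fin k → ℂ}
    (h : (y, z, u) ∈ total t lam G A B g) {a : ℂ} (ha : a ≠ 0) :
    (a • y, z, u) ∈ total t lam G A B g := by
  have hsm : ∀ (P : MvPolynomial (Fin (N + 1)) (Polynomial K)) (f : ℕ), P.IsHomogeneous f →
      eval₂ (evalAt K t) (a • y) P = a ^ f * eval₂ (evalAt K t) y P := by
    intro P f hP
    have h1 := Pool.Agent.W466.ZC.eval_smul (hP.map (evalAt K t)) a y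
    rwa [eval_map, eval_map] at h1
  obtain ⟨⟨h1, h2⟩, h3, h4, h5⟩ := h
  refine ⟨⟨smul_ne_zero ha h1, fun l => ?_⟩, h3, fun i => ?_, fun j => ?_⟩
  · obtain ⟨e, he⟩ := hG l
    change eval₂ (evalAt K t) (a • y) (G l) = 0
    rw [hsm _ _ he, h2 l, mul_zero]
  · change _ * eval₂ (evalAt K t) (a • y) (B (Sum.inl i)) * _ =
      eval₂ (evalAt K t) (a • y) (A (Sum.inl i))
    rw [hsm _ _ (hA _), hsm _ _ (hB _), ← h4 i]
    ring
  · change _ * eval₂ (evalAt K t) (a • y) (B (Sum.inr j)) * _ =
      eval₂ (evalAt K t) (a • y) (A (Sum.inr j))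
    rw [hsm _ _ (hA _), hsm _ _ (hB _), ← h5 j]
    ring

/-- Variations of mixed Hodge structures over families of bases and maps to modular curves and tori
over an elliptic curve, scaled by arbitrary units: only for finitely many points `P` over a number
field there are units `w` of the integral closure of `R_P` such that the variation on `S_{P,w}` has an
atypical special subvariety. -/
theorem result (K : Subfield ℂ) [Countable K] (κ : Type) [Finite κ] (N n k m M T : ℕ)
    (G : κ → MvPolynomial (Fin (N + 1)) (Polynomial K)) (hG : ∀ l, ∃ e, (G l).IsHomogeneous e)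
    (A B : Fin n ⊕ Fin k → MvPolynomial (Fin (N + 1)) (Polynomial K)) (δ : Fin n ⊕ Fin k → ℕ)
    (hA : ∀ i, (A i).IsHomogeneous (δ i)) (hB : ∀ i, (B i).IsHomogeneous (δ i))
    (R : Fin n → Polynomial (Polynomial K)) (hR : ∀ i, (R i).Monic)
    (hT : ∀ i u w, ((R i).coeff u).coeff w ≠ 0 → u ≤ T ∧ w ≤ T)
    (g : Fin n → ℍ → ℂ) (hg : ∀ i z, valueAt (R i) (g i z) (jj z) = 0)
    (a b : ℂ) (ha : IsAlgebraic ℚ a) (hb : IsAlgebraic ℚ b) (hab : 4 * a ^ 3 + 27 * b ^ 2 ≠ 0)
    (u v : MvPolynomial (Fin 2) ℂ) (hu : ∀ d, IsAlgebraic K (u.coeff d))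
    (hv : ∀ d, IsAlgebraic K (v.coeff d))
    (Q : Fin M → Fin 2 → ℂ) (hQ : ∀ l, Q l ∈ Curve a b) (hQa : ∀ l i, IsAlgebraic ℚ (Q l i))
    (hvQ : ∀ l, eval (Q l) v ≠ 0) (hM : n * (n - 1) / 2 + k * 2 ^ k + 1 ≤ M)
    (c : Fin n ⊕ Fin k → MvPolynomial (Fin 2) ℂ) (e : Fin M → Fin n ⊕ Fin k → ℕ)
    (he : ∀ l i, HasOrder K a b (Q l) (c i) (e l i)) (hind : IndependentOrders T e)
    (hpos : ∀ l, InGeneralPosition (value u v (Q l)) m G A B)
    (F : Finset ℂ) (hF : ∀ z ∈ F, IsAlgebraic K z) (H : Finset (MvPolynomial (Fin 2) ℂ))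
    (hHa : ∀ h ∈ H, ∀ d, IsAlgebraic K (h.coeff d)) (hHQ : ∀ l, ∀ h ∈ H, eval (Q l) h ≠ 0)
    (E : IntermediateField ℚ ℂ) [FiniteDimensional ℚ E] :
    {P : Fin 2 → ℂ | P ∈ Curve a b ∧ (∀ i, P i ∈ E) ∧
      ∃ w : Fin n ⊕ Fin k → ℂ, (∀ i, IsUnitOver (generators F H P) (w i)) ∧
        ¬ NoAtypical (generators F H P)
          (total (value u v P) (fun i => w i * eval P (c i)) G A B g) m}.Finite := by
  classical
  have hM' : n.choose 2 + k * 2 ^ k + 1 ≤ M := by
    rw [Nat.choose_two_right]
    exact hM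
  let ι : Fin (n.choose 2 + k * 2 ^ k + 1) → Fin M := Fin.castLE hM'
  have hι : Function.Injective ι := Fin.castLE_injective hM'
  obtain ⟨W, hcrit⟩ := Pool.Agent.Q57.ZP.tot_crit_ell K κ N n k m T G hG A B δ hA hB R hR hT a b
    u v hu hv (fun l => Q (ι l)) (fun l i => (hQa _ i).isIntegral.tower_top.isAlgebraic)
    (fun l => hvQ _) c (fun l => e (ι l)) (fun l => he _) (fun l => hind.1 _)
    (fun l l' hll i j hij q hq hqT => hind.2.1 _ _ (fun h => hll (hι h)) i j hij q hq hqT)
    (fun s b hs hb => hind.2.2 (s.map ⟨ι, hι⟩) b (by rwa [Finset.card_map]) (by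
      intro l hl
      obtain ⟨l', hl', rfl⟩ := Finset.mem_map.1 hl
      exact hb l' hl'))
    (fun l => hpos _) F hF H hHa (fun l => hHQ _)
  have hbad := (Pool.Agent.Y199.SG.ZPZ.near_all a b ha hb hab (fun l => Q (ι l)) (fun l => hQ _)
    (fun l => hQa _) W E).union
    (Set.finite_iUnion fun l => Pool.Agent.Q57.ZP.loc_finite a b (Q (ι l)))
  refine hbad.subset ?_
  rintro P ⟨hP, hPE, w, hw, hno⟩
  by_contra hcon
  rw [Set.mem_union, not_or, Set.mem_iUnion, not_exists] at hcon
  obtain ⟨hcon1, hcon2⟩ := hcon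
  have hnear : ∀ l, ∃ V : ValuationSubring ℂ, (∀ z ∈ W, z ∈ V) ∧
      ∀ i, V.valuation (P i - Q (ι l) i) < 1 := by
    by_contra h2
    exact hcon1 ⟨hP, hPE, h2⟩
  have hloc : ∀ l, Pool.Agent.Y199.SG.ZPZ.loc (Q (ι l)) P ≠ 0 := fun l h => hcon2 l ⟨hP, h⟩
  have hPa : ∀ i, IsAlgebraic K (P i) := fun i =>
    Pool.Agent.Y199.SG.ZPZ.alg_of_mem K E _ (hPE i)
  have hkey : ∀ (y : Fin (N + 1) → ℂ) (z : Fin n → ℍ) (u' : Fin k → ℂ) (j0 : Fin (N + 1)) (ρ : ℕ),
      y j0 = 1 → (y, z, u') ∈ total (value u v P) (fun i => w i * eval P (c i)) G A B g →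
      InSpecial (generators F H P) (fun i => jj (z i)) u' ρ →
      ∀ (S : Finset (Fin n ⊕ Fin k)) (T1 : Finset (Fin (N + 1))),
      AlgebraicIndependent K (Sum.elim (fun i : S => coords z u' i) (fun a : T1 => y a)) →
      S.card + T1.card + ρ ≤ m := by
    rintro y z u' j0 ρ hj0 ⟨hy, h0, h1, h2⟩ ⟨r, Z, Ms, η, hη, hρ, hxZ, hxC⟩ S T1 hST
    have h3 := hcrit P hP hPa hloc hnear w (fun i => hw i) r Z Ms η (fun j => hη j) y j0
      hj0 hy (coords z u') (fun i => g i (z i)) h0 (fun i => ⟨hg i _, h1 i⟩) h2 hxZ hxC S T1 hST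
    omega
  apply hno
  intro ρ
  constructor
  · intro s σ W' p hW' hcl hprime hp
    refine Pool.Agent.Q57.ZP.dim_of_trdeg K
      (Q := (Fin (N + 1) → ℂ) × (Fin n → ℍ) × (Fin k → ℂ)) (m := m) (ρ := ρ)
      (fun q => coords q.2.1 q.2.2)
      (fun q => q ∈ total (value u v P) (fun i => w i * eval P (c i)) G A B g ∧
        InSpecial (generators F H P) (fun i => jj (q.2.1 i)) q.2.2 ρ)
      ?_ σ W' p ?_ hcl hprime hp
    · rintro ⟨y, z, u'⟩ ⟨hyX, hS⟩ S hSi
      obtain ⟨j0, hj0⟩ : ∃ j0, y j0 ≠ 0 := by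
        by_contra hcon
        push Not at hcon
        exact hyX.1.1 (funext hcon)
      have h2 : AlgebraicIndependent K (Sum.elim (fun i : S => coords z u' i)
          (fun a : (∅ : Finset (Fin (N + 1))) => ((y j0)⁻¹ • y) a)) :=
        Pool.Agent.Q57.ZP.empty_ind (K := K) ((y j0)⁻¹ • y) (coords z u') S hSi
      have h3 := hkey ((y j0)⁻¹ • y) z u' j0 ρ (by
        rw [Pi.smul_apply, smul_eq_mul, inv_mul_cancel₀ hj0]) (scale_mem hG hA hB hyX
        (inv_ne_zero hj0)) hS S ∅ h2
      rw [Finset.card_empty, add_zero] at h3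
      exact h3
    · intro v hv hpv
      obtain ⟨q, hq1, hq2, hq3⟩ := hW' v hv hpv
      exact ⟨q, ⟨hq1, hq2⟩, hq3⟩
  · intro j₀ s σ W' p hW' hcl hprime hp
    refine Pool.Agent.Q57.ZP.dim_of_trdeg K
      (Q := (Fin (N + 1) → ℂ) × (Fin n → ℍ) × (Fin k → ℂ)) (m := m) (ρ := ρ)
      (fun q => Sum.elim q.1 (coords q.2.1 q.2.2))
      (fun q => q ∈ total (value u v P) (fun i => w i * eval P (c i)) G A B g ∧ q.1 j₀ = 1 ∧
        InSpecial (generators F H P) (fun i => jj (q.2.1 i)) q.2.2 ρ)
      ?_ σ W' p ?_ hcl hprime hp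
    · rintro ⟨y, z, u'⟩ ⟨hyX, hj, hS⟩ S hSi
      have h2 : AlgebraicIndependent K (Sum.elim (fun i : S.toRight => coords z u' i)
          (fun a : S.toLeft => y a)) :=
        Pool.Agent.Q57.ZP.split_ind (K := K) y (coords z u') S hSi
      have h3 := hkey y z u' j₀ ρ hj hyX hS S.toRight S.toLeft h2
      have h4 := S.card_toLeft_add_card_toRight
      omega
    · intro v hv hpv
      obtain ⟨q, hq1, hq2, hq3, hq4⟩ := hW' v hv hpv
      exact ⟨q, ⟨hq1, hq2, hq3⟩, hq4⟩

end Pool.Agent.Results.MP_eeb1a4_ag.TwistsOverEllipticCurves
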